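import Mathlib

namespace Pool.Agent.Results.MP_6cdded_pr.Limit
open MeasureTheory ProbabilityTheory Filter Finset Relation
open scoped ENNReal Topology Classical

def lo (ω : ℕ → ℝ × ℝ) (i : ℕ) : ℝ := min (ω i).1 (ω i).2
def hi (ω : ℕ → ℝ × ℝ) (i : ℕ) : ℝ := max (ω i).1 (ω i).2

/-- the strict order of the poset: interval `i` lies entirely to the left of interval `j` -/
def prec (ω : ℕ → ℝ × ℝ) (i j : ℕ) : Prop := i ≠ j ∧ hi ω i ≤ lo ω j

/-- `j` is a child of `i` in the tree on `A` with root `r` and parent map `par` -/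
def child (A : Finset ℕ) (r : ℕ) (par : ℕ → ℕ) (i j : ℕ) : Prop := j ∈ A.erase r ∧ par j = i

/-- `A` is a `k`-ary chain: a rooted tree on `A` with at most `k` children per vertex in which
every descendant lies above its ancestors -/
def IsChain (k : ℕ) (ω : ℕ → ℝ × ℝ) (A : Finset ℕ) : Prop :=
  ∃ r ∈ A, ∃ par : ℕ → ℕ, (∀ j ∈ A.erase r, par j ∈ A) ∧
    (∀ j ∈ A, ReflTransGen (child A r par) r j) ∧ (∀ i, #{j ∈ A | child A r par i j} ≤ k) ∧
    ∀ i j, TransGen (child A r par) i j → prec ω i j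

/-- the `k`-width of the set of the first `n` intervals -/
noncomputable def wd (k : ℕ) (ω : ℕ → ℝ × ℝ) (n : ℕ) : ℕ :=
  sInf {c | ∃ π : Finpartition (range n), #π.parts = c ∧ ∀ A ∈ π.parts, IsChain k ω A}

noncomputable def U : Measure ℝ := volume.restrict (Set.Ioo 0 1)

/-- i.i.d. pairs of independent uniform points of `(0,1)` -/
noncomputable def P : Measure (ℕ → ℝ × ℝ) := Measure.infinitePi fun _ => U.prod U

variable {k n : ℕ} {ω : ℕ → ℝ × ℝ}

lemma lower (x : ℝ) : #{j ∈ range n | lo ω j < x} ≤ wd k ω n + k * #{i ∈ range n | hi ω i ≤ x} := by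
  obtain ⟨π, h1, h2⟩ := Nat.sInf_mem (s := {c | ∃ π : Finpartition (range n), #π.parts = c ∧
    ∀ A ∈ π.parts, IsChain k ω A}) ⟨_, ⊥, rfl, fun A hA => by
      obtain ⟨a, -, rfl⟩ := Finpartition.mem_bot_iff.1 hA
      refine ⟨a, by simp, id, by simp, by simp [ReflTransGen.refl], by simp [child], fun i j h => ?_⟩
      obtain ⟨_, -, h⟩ := TransGen.tail'_iff.1 h
      simp [child] at h⟩
  have e : ∀ p : ℕ → Prop, #{j ∈ range n | p j} = ∑ A ∈ π.parts, #{j ∈ A | p j} := fun p => by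
    conv_lhs => rw [← π.biUnion_parts, filter_biUnion]
    exact card_biUnion fun A hA B hB h => disjoint_filter_filter (π.disjoint hA hB h)
  rw [wd, ← h1, e, e, card_eq_sum_ones π.parts, mul_sum, ← sum_add_distrib]
  refine sum_le_sum fun A hA => ?_
  obtain ⟨r, -, par, h3, -, h4, h5⟩ := h2 A hA
  have := card_le_mul_card_image_of_maps_to (s := {j ∈ A.erase r | lo ω j < x})
    (t := {i ∈ A | hi ω i ≤ x}) (f := par) (fun j hj => by
      rw [mem_filter] at hj ⊢
      exact ⟨h3 j hj.1, (h5 _ j (.single ⟨hj.1, rfl⟩)).2.trans hj.2.le⟩) k fun i _ =>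
    (card_le_card fun j hj => by
      simp only [mem_filter, child] at hj ⊢
      exact ⟨mem_of_mem_erase hj.1.1, hj.1.1, hj.2⟩).trans (h4 i)
  rw [filter_erase] at this
  have := pred_card_le_card_erase (s := {j ∈ A | lo ω j < x}) (a := r)
  omega

def root (ρ q : ℕ → ℕ) (j : ℕ) : ℕ := if ρ (q j) < ρ j then root ρ q (q j) else j
termination_by ρ j

lemma forest (hω : ∀ j, lo ω j < hi ω j) (ρ q : ℕ → ℕ)
    (h1 : ∀ j < n, ρ (q j) < ρ j → q j < n ∧ prec ω (q j) j)
    (h2 : ∀ i, #{j ∈ range n | ρ (q j) < ρ j ∧ q j = i} ≤ k) :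
    wd k ω n ≤ #{j ∈ range n | ¬ ρ (q j) < ρ j} := by
  have spec : ∀ j < n, root ρ q j < n ∧ ¬ ρ (q (root ρ q j)) < ρ (root ρ q j) := fun j => by
    induction j using root.induct ρ q with
    | case1 j h ih => intro hj; rw [root, if_pos h]; exact ih (h1 j hj h).1
    | case2 j h => intro hj; rw [root, if_neg h]; exact ⟨hj, h⟩
  have idem : ∀ j < n, root ρ q (root ρ q j) = root ρ q j := fun j hj => by
    rw [root, if_neg (spec j hj).2]
  refine le_trans (Nat.sInf_le ⟨.ofSetSetoid (Setoid.ker (root ρ q)) (range n), rfl,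
    fun A hA => ?_⟩) ?_
  · obtain ⟨a, ha, rfl⟩ := mem_image.1 hA
    simp only [mem_range] at ha
    set A : Finset ℕ := {b ∈ range n | Setoid.ker (root ρ q) a b}
    have mA : ∀ b, b ∈ A ↔ b < n ∧ root ρ q a = root ρ q b := by simp [A, Setoid.ker_def]
    have key : ∀ j ∈ A.erase (root ρ q a), j < n ∧ ρ (q j) < ρ j ∧ q j ∈ A := fun j hj => by
      rw [mem_erase, mA] at hj
      have := hj.2.2
      rw [root.eq_1 ρ q j] at this
      split_ifs at this with h
      exacts [⟨hj.2.1, h, (mA _).2 ⟨(h1 j hj.2.1 h).1, this⟩⟩, absurd this.symm hj.1]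
    refine ⟨root ρ q a, (mA _).2 ⟨(spec a ha).1, (idem a ha).symm⟩, q, fun j hj => (key j hj).2.2,
      fun j => ?_, fun i => le_trans (card_le_card fun j hj => ?_) (h2 i), fun i j h => ?_⟩
    · induction j using root.induct ρ q with
      | case1 j h ih =>
        intro hj
        by_cases e : j = root ρ q a
        · exact e ▸ .refl
        · have := mem_erase.2 ⟨e, hj⟩
          exact (ih (key j this).2.2).tail ⟨this, rfl⟩
      | case2 j h =>
        intro hj
        have := ((mA j).1 hj).2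
        rw [root.eq_1 ρ q j, if_neg h] at this
        exact this ▸ .refl
    · rw [mem_filter] at hj ⊢
      exact ⟨mem_range.2 (key j hj.2.1).1, (key j hj.2.1).2.1, hj.2.2⟩
    · induction h with
      | single h => exact h.2 ▸ (h1 _ (key _ h.1).1 (key _ h.1).2.1).2
      | @tail b c _ h ih =>
        have h3 := (h.2 ▸ (h1 _ (key _ h.1).1 (key _ h.1).2.1).2 : prec ω b c).2
        have h4 := ih.2.trans_lt ((hω b).trans_le h3)
        exact ⟨fun e => by subst e; exact ((hω i).trans h4).false, h4.le⟩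
  · refine le_trans (card_le_card fun A hA => ?_)
      (card_image_le (f := fun a => {b ∈ range n | Setoid.ker (root ρ q) a b}))
    obtain ⟨a, ha, rfl⟩ := mem_image.1 hA
    have ha := mem_range.1 ha
    exact mem_image.2 ⟨root ρ q a, mem_filter.2 ⟨mem_range.2 (spec a ha).1, (spec a ha).2⟩,
      by simp [Setoid.ker_def, idem a ha]⟩

lemma hall (hω : ∀ j, lo ω j < hi ω j) {y : ℝ} (hy : 0 ≤ y) (h : ∀ S ⊆ range n, ∃ N ⊆ range n,
    (∀ i ∈ N, ∃ j ∈ S, hi ω i ≤ lo ω j) ∧ (#S : ℝ) ≤ y + k * #N) : wd k ω n ≤ y := by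
  obtain ⟨f, hf, hm⟩ := (all_card_le_biUnion_card_iff_existsInjective' fun j : Fin n =>
    {i ∈ range n | hi ω i ≤ lo ω j} ×ˢ range k ∪ {n} ×ˢ range ⌊y⌋₊).1 fun s => by
      rcases s.eq_empty_or_nonempty with rfl | ⟨j0, hj0⟩
      · simp
      obtain ⟨N, h0, h1, h2⟩ := h (s.map Fin.valEmbedding) (by simp [subset_iff])
      simp only [Finset.mem_map, Fin.valEmbedding_apply, exists_exists_and_eq_and, card_map] at h1 h2
      have hd : Disjoint (N ×ˢ range k) ({n} ×ˢ range ⌊y⌋₊) := disjoint_left.2 fun p h3 h4 => by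
        have := mem_range.1 (h0 (mem_product.1 h3).1)
        have := mem_singleton.1 (mem_product.1 h4).1
        omega
      refine le_trans ?_ (card_le_card (s := N ×ˢ range k ∪ {n} ×ˢ range ⌊y⌋₊) (union_subset
        (fun p hp => ?_) fun p hp => mem_biUnion.2 ⟨j0, hj0, mem_union_right _ hp⟩))
      · rw [card_union_of_disjoint hd, card_product, card_product, card_range, card_range,
          card_singleton, one_mul, ← tsub_le_iff_left, Nat.le_floor_iff hy]
        rcases le_total #s (#N * k) with h3 | h3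
        · simpa [Nat.sub_eq_zero_of_le h3] using hy
        · rw [Nat.cast_sub h3]; push_cast; linarith
      · obtain ⟨j, hj, h3⟩ := h1 _ (mem_product.1 hp).1
        exact mem_biUnion.2 ⟨j, hj, mem_union_left _ (mem_product.2
          ⟨mem_filter.2 ⟨h0 (mem_product.1 hp).1, h3⟩, (mem_product.1 hp).2⟩)⟩
  let g : ℕ → ℕ × ℕ := fun j => if h : j < n then f ⟨j, h⟩ else 0
  have gi : Set.InjOn g (range n) := fun a ha b hb e => by
    simp only [coe_range, Set.mem_Iio] at ha hb
    simpa [g, ha, hb, hf.eq_iff] using e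
  have gm : ∀ j < n, ((g j).1 < n ∧ hi ω (g j).1 ≤ lo ω j ∧ (g j).2 < k) ∨
      ((g j).1 = n ∧ (g j).2 < ⌊y⌋₊) := fun j hj => by
    simpa [g, hj, and_assoc, -singleton_product] using hm ⟨j, hj⟩
  have cnt : ∀ (p : ℕ → Prop) [DecidablePred p] (i c : ℕ), (∀ j < n, p j → (g j).1 = i ∧ (g j).2 < c) →
      #{j ∈ range n | p j} ≤ c := fun p _ i c hp =>
    (card_le_card_of_injOn (t := {i} ×ˢ range c) g (fun j hj => by
      simpa [-singleton_product] using hp j (mem_range.1 (mem_filter.1 hj).1) (mem_filter.1 hj).2)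
      (gi.mono (by simp [Set.subset_def]; tauto))).trans (by simp)
  let ρ : ℕ → ℕ := fun j => if j < n then #{i ∈ range n | lo ω i < lo ω j} else n
  have r1 : ∀ j < n, (g j).1 = n → ¬ ρ (g j).1 < ρ j := fun j hj e => by
    simpa [ρ, e, hj] using (card_filter_le _ _).trans_eq (card_range n)
  have r2 : ∀ j < n, (g j).1 < n → hi ω (g j).1 ≤ lo ω j → ρ (g j).1 < ρ j := fun j hj a b => by
    have c := (hω _).trans_le b
    simp only [ρ, if_pos hj, if_pos a]
    exact card_lt_card ((ssubset_iff_of_subset (monotone_filter_right _ fun i _ h => h.trans c)).2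
      ⟨(g j).1, by simpa using ⟨a, c⟩, by simp⟩)
  refine le_trans (Nat.cast_le.2 ((forest hω ρ (fun j => (g j).1) (fun j hj h1 => ?_) fun i =>
    cnt _ i k fun j hj h1 => ⟨h1.2, ?_⟩).trans (cnt _ n _ fun j hj h1 => ?_))) (Nat.floor_le hy)
  · exact (gm j hj).elim (fun h => ⟨h.1, fun e => (by simp [e] at h1), h.2.1⟩)
      fun h => absurd h1 (r1 j hj h.1)
  · exact (gm j hj).elim (fun h => h.2.2) fun h => absurd h1.1 (r1 j hj h.1)
  · exact (gm j hj).elim (fun h => absurd (r2 j hj h.1 h.2.1) h1) id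

instance : IsProbabilityMeasure U := ⟨by simp [U]⟩
instance : IsProbabilityMeasure P := by unfold P; infer_instance

def El (y : ℝ) : Set (ℝ × ℝ) := (Set.Ici y ×ˢ Set.Ici y)ᶜ
def Eh (x : ℝ) : Set (ℝ × ℝ) := Set.Iic x ×ˢ Set.Iic x
lemma mEl (y : ℝ) : MeasurableSet (El y) := (measurableSet_Ici.prod measurableSet_Ici).compl
lemma mEh (y : ℝ) : MeasurableSet (Eh y) := measurableSet_Iic.prod measurableSet_Iic

lemma pEl {y : ℝ} (h0 : 0 ≤ y) (h1 : y ≤ 1) : (U.prod U).real (El y) = 1 - (1 - y) ^ 2 := by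
  have : U.real (Set.Ici y) = 1 - y := by
    rw [U, Measure.restrict_congr_set Ioo_ae_eq_Ico, measureReal_restrict_apply measurableSet_Ici,
      show Set.Ici y ∩ Set.Ico 0 1 = Set.Ico y 1 by ext; simp; grind, Real.volume_real_Ico_of_le h1]
  rw [El, probReal_compl_eq_one_sub (measurableSet_Ici.prod measurableSet_Ici),
    measureReal_prod_prod, this, sq]

lemma pEh {y : ℝ} (h0 : 0 ≤ y) (h1 : y ≤ 1) : (U.prod U).real (Eh y) = y ^ 2 := by
  have : U.real (Set.Iic y) = y := by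
    rw [U, Measure.restrict_congr_set Ioo_ae_eq_Ioc, measureReal_restrict_apply measurableSet_Iic,
      show Set.Iic y ∩ Set.Ioc 0 1 = Set.Ioc 0 y by ext; simp; grind, Real.volume_real_Ioc_of_le h0,
      sub_zero]
  rw [Eh, measureReal_prod_prod, this, sq]

noncomputable def Z (E : Set (ℝ × ℝ)) (B : Finset ℕ) (ω : ℕ → ℝ × ℝ) : ℝ :=
  ∑ j ∈ B, (E.indicator 1 (ω j) - (U.prod U).real E)

lemma Z_eq (E : Set (ℝ × ℝ)) (B : Finset ℕ) (p : ℕ → Prop) [DecidablePred p]
    (h : ∀ j, p j ↔ ω j ∈ E) : (#{j ∈ B | p j} : ℝ) = Z E B ω + #B * (U.prod U).real E := by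
  simp [Z, Set.indicator, h]

lemma Z_lo (y : ℝ) (B : Finset ℕ) : (#{j ∈ B | lo ω j < y} : ℝ) =
    Z (El y) B ω + #B * (U.prod U).real (El y) :=
  Z_eq _ _ _ fun j => by simp [lo, El, -not_and, not_and_or, Prod.le_def]
lemma Z_hi (y : ℝ) (B : Finset ℕ) : (#{j ∈ B | hi ω j ≤ y} : ℝ) =
    Z (Eh y) B ω + #B * (U.prod U).real (Eh y) := Z_eq _ _ _ fun j => by simp [hi, Eh, Prod.le_def]

lemma Z_spec {E : Set (ℝ × ℝ)} (hE : MeasurableSet E) (B : Finset ℕ) :
    Integrable (Z E B) P ∧ ∫ ω, Z E B ω ∂P = 0 ∧ ∫ ω, |Z E B ω| ∂P ≤ √(#B) := by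
  set f : ℝ × ℝ → ℝ := fun u => E.indicator 1 u - (U.prod U).real E
  have mf : Measurable f := (measurable_one.indicator hE).sub_const _
  have hb : ∀ u, f u ∈ Set.Icc (-1 : ℝ) 1 := fun u => by
    have := measureReal_le_one (μ := U.prod U) (s := E)
    have := measureReal_nonneg (μ := U.prod U) (s := E)
    simp only [f, Set.indicator]; split_ifs <;> constructor <;> simp <;> linarith
  have l2 : ∀ j, MemLp (fun ω : ℕ → ℝ × ℝ => f (ω j)) 2 P := fun j =>
    memLp_of_bounded (.of_forall fun ω => hb _)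
      (mf.comp (measurable_pi_apply j)).aestronglyMeasurable 2
  have m0 : ∀ j, ∫ ω, f (ω j) ∂P = 0 := fun j => by
    rw [← integral_map (measurable_pi_apply j).aemeasurable mf.aestronglyMeasurable, P,
      Measure.infinitePi_map_eval, integral_sub ((integrable_const 1).indicator hE)
      (integrable_const _), integral_indicator_one hE]
    simp
  have e : Z E B = ∑ j ∈ B, fun ω : ℕ → ℝ × ℝ => f (ω j) := by ext; simp [Z, f]
  have lZ : MemLp (Z E B) 2 P := e ▸ memLp_finsetSum' _ fun j _ => l2 j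
  have z0 : ∫ ω, Z E B ω ∂P = 0 := by
    refine (integral_finsetSum B fun j _ => (l2 j).integrable one_le_two).trans ?_
    simp [m0]
  refine ⟨lZ.integrable one_le_two, z0, Real.le_sqrt_of_sq_le ?_⟩
  have h1 := variance_nonneg |Z E B| P
  have h2 := variance_eq_sub lZ
  have h3 : Var[Z E B; P] ≤ #B := by
    rw [e, IndepFun.variance_sum (fun j _ => l2 j) fun i _ j _ h =>
      (iIndepFun_infinitePi (X := fun _ => f) fun _ => mf).indepFun h]
    refine (sum_le_card_nsmul _ _ 1 fun j _ => (variance_le_sq_of_bounded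
      (.of_forall fun ω => hb _) (l2 j).aemeasurable).trans (by norm_num)).trans (by simp)
  rw [variance_eq_sub lZ.abs] at h1
  simp only [Pi.abs_apply, Pi.pow_apply, sq_abs] at h1 h2
  rw [z0] at h2
  linarith

noncomputable def up (k n M : ℕ) (ω : ℕ → ℝ × ℝ) : ℝ :=
  n * (1 / (k + 1) + 2 / M) + ∑ m ∈ range M,
    (|Z (El ((m + 1) / M)) (range n) ω| + k * |Z (Eh (m / M)) (range n) ω|)

lemma upper {M : ℕ} (hM : 0 < M) (h : ∀ j, lo ω j ∈ Set.Ioo (0 : ℝ) 1 ∧ lo ω j < hi ω j) :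
    wd k ω n ≤ up k n M ω := by
  have hM' : (0 : ℝ) < M := by exact_mod_cast hM
  refine hall (fun j => (h j).2) (by unfold up; positivity) fun S hS => ?_
  rcases S.eq_empty_or_nonempty with rfl | h0
  · exact ⟨∅, by simp, by simp, by simp only [card_empty, Nat.cast_zero]; unfold up; positivity⟩
  obtain ⟨j, hj, hmax⟩ := exists_max_image _ (lo ω) h0
  set m := ⌊lo ω j * M⌋₊
  have a1 : (m : ℝ) / M ≤ lo ω j := (div_le_iff₀ hM').2 (Nat.floor_le (mul_pos (h j).1.1 hM').le)
  have a2 : lo ω j < (m + 1) / M := (lt_div_iff₀ hM').2 (Nat.lt_floor_add_one _)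
  have a3 : m < M := by exact_mod_cast (div_lt_one hM').1 (a1.trans_lt (h j).1.2)
  have a4 : ((m : ℝ) + 1) / M ≤ 1 := (div_le_one hM').2 (by exact_mod_cast a3)
  refine ⟨{i ∈ range n | hi ω i ≤ m / M}, filter_subset _ _, fun i hi => ⟨j, hj,
    (mem_filter.1 hi).2.trans a1⟩, ?_⟩
  have b1 : (#S : ℝ) ≤ #{i ∈ range n | lo ω i < (m + 1) / M} :=
    Nat.cast_le.2 (card_le_card fun i hi => mem_filter.2 ⟨hS hi, (hmax i hi).trans_lt a2⟩)
  have b2 := single_le_sum (f := fun m : ℕ => |Z (El ((m + 1) / M)) (range n) ω| +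
    k * |Z (Eh (m / M)) (range n) ω|) (fun _ _ => by positivity) (mem_range.2 a3)
  have b3 : 1 - (1 - ((m : ℝ) + 1) / M) ^ 2 - k * (m / M) ^ 2 ≤ 1 / (k + 1) + 2 / M := by
    have : 2 * (m / M) - (k + 1) * (m / M : ℝ) ^ 2 ≤ 1 / (k + 1) := by
      rw [le_div_iff₀ (by positivity)]; nlinarith [sq_nonneg ((k + 1) * (m / M : ℝ) - 1)]
    have h5 : (0 : ℝ) ≤ m / M * (1 / M) := by positivity
    rw [add_div, show 2 / (M : ℝ) = 2 * (1 / M) by ring]; nlinarith [sq_nonneg (1 / M : ℝ)]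
  have b4 := mul_le_mul_of_nonneg_left b3 n.cast_nonneg
  have b5 := mul_le_mul_of_nonneg_left (neg_abs_le (Z (Eh (m / M)) (range n) ω)) k.cast_nonneg
  rw [Z_lo, pEl (by positivity) a4] at b1
  rw [Z_hi, pEh (by positivity) (a1.trans (h j).1.2.le)]
  simp only [card_range] at b1 b2 b5 ⊢
  unfold up
  linarith [le_abs_self (Z (El ((m + 1) / M)) (range n) ω)]

lemma ae_lo : ∀ᵐ ω ∂P, ∀ j, lo ω j ∈ Set.Ioo (0 : ℝ) 1 ∧ lo ω j < hi ω j := ae_all_iff.2 fun j => by
  have h : ∀ᵐ u ∂U.prod U, u ∈ Set.Ioo (0 : ℝ) 1 ×ˢ Set.Ioo (0 : ℝ) 1 := by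
    rw [U, Measure.prod_restrict]
    exact ae_restrict_mem (measurableSet_Ioo.prod measurableSet_Ioo)
  have h' : ∀ᵐ u ∂U.prod U, u.1 ≠ u.2 := by
    exact (Measure.ae_prod_iff_ae_ae (measurableSet_eq_fun measurable_fst measurable_snd).compl).2
      (.of_forall fun a => ae_restrict_of_ae (by simp [ae_iff]))
  filter_upwards [(measurePreserving_eval_infinitePi (fun _ : ℕ => U.prod U) j).quasiMeasurePreserving.ae
    (h.and h')] with ω h using ⟨⟨lt_min h.1.1.1 h.1.2.1, min_lt_of_left_lt h.1.1.2⟩, min_lt_max.2 h.2⟩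

lemma bounds {M : ℕ} (hM : 0 < M) :
    n / (k + 1) ≤ (∫⁻ ω, wd k ω n ∂P).toReal ∧ (∫⁻ ω, wd k ω n ∂P).toReal ≤
      n * (1 / (k + 1) + 2 / M) + M * ((1 + k) * √n) := by
  have i1 : ∀ m : ℕ, Integrable (fun ω => |Z (El ((m + 1) / M)) (range n) ω| +
      k * |Z (Eh (m / M)) (range n) ω|) P := fun m =>
    (Z_spec (mEl _) _).1.abs.add ((Z_spec (mEh _) _).1.abs.const_mul _)
  have i3 : Integrable (up k n M) P :=
    (integrable_const _).add (integrable_finsetSum (range M) fun m _ => i1 m)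
  have u1 : ∫⁻ ω, wd k ω n ∂P ≤ ENNReal.ofReal (∫ ω, up k n M ω ∂P) := by
    rw [ofReal_integral_eq_lintegral_ofReal i3 (.of_forall fun ω => by unfold up; positivity)]
    exact lintegral_mono_ae (ae_lo.mono fun ω h => (ENNReal.ofReal_natCast _).symm.trans_le
      (ENNReal.ofReal_le_ofReal (upper hM h)))
  constructor
  · have hx : (1 : ℝ) / (k + 1) ≤ 1 := by rw [div_le_one (by positivity)]; linarith [k.cast_nonneg (α := ℝ)]
    obtain ⟨j1, j2, -⟩ := Z_spec (mEl (1 / (k + 1))) (range n)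
    obtain ⟨j3, j4, -⟩ := Z_spec (mEh (1 / (k + 1))) (range n)
    have j5 := (j1.sub (j3.const_mul k)).add (integrable_const (n / (k + 1) : ℝ))
    have := integral_eq_lintegral_pos_part_sub_lintegral_neg_part j5
    rw [integral_add' (j1.sub (j3.const_mul k)) (integrable_const _), integral_sub' j1
      (j3.const_mul k), integral_const_mul, j2, j4] at this
    simp only [mul_zero, sub_zero, zero_add, integral_const, probReal_univ, one_smul] at this
    refine this.trans_le ((sub_le_self _ ENNReal.toReal_nonneg).trans (ENNReal.toReal_mono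
      (ne_top_of_le_ne_top ENNReal.ofReal_ne_top u1) (lintegral_mono fun ω =>
        (ENNReal.ofReal_le_ofReal ?_).trans_eq (ENNReal.ofReal_natCast _))))
    have := (Nat.cast_le (α := ℝ)).2 (lower (k := k) (n := n) (ω := ω) (1 / (k + 1)))
    push_cast at this
    rw [Z_lo, Z_hi, pEl (by positivity) hx, pEh (by positivity) hx, card_range] at this
    have e : (n : ℝ) / (k + 1) = n * (1 - (1 - 1 / (k + 1)) ^ 2) - k * (n * (1 / (k + 1)) ^ 2) := by
      field_simp; ring
    simp only [Pi.add_apply, Pi.sub_apply]; linarith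
  · refine ENNReal.toReal_le_of_le_ofReal (by positivity) (u1.trans (ENNReal.ofReal_le_ofReal ?_))
    unfold up
    rw [integral_add (integrable_const _) (integrable_finsetSum _ fun m _ => i1 m),
      integral_finsetSum _ fun m _ => i1 m]
    simp only [integral_const, probReal_univ, one_smul]
    refine add_le_add_right ((sum_le_card_nsmul _ _ _ fun m _ => ?_).trans_eq
      (by rw [card_range, nsmul_eq_mul])) _
    rw [integral_add (Z_spec (mEl _) _).1.abs ((Z_spec (mEh _) _).1.abs.const_mul _),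
      integral_const_mul]
    have a1 := (Z_spec (mEl ((m + 1) / M)) (range n)).2.2
    have a2 := mul_le_mul_of_nonneg_left (Z_spec (mEh (m / M)) (range n)).2.2 k.cast_nonneg
    simp only [card_range] at a1 a2 ⊢
    linarith

theorem result (k : ℕ) :
    Tendsto (fun n : ℕ => (∫⁻ ω, wd k ω n ∂P).toReal / n) atTop (𝓝 (1 / (k + 1))) := by
  refine tendsto_order.2 ⟨fun a ha => (eventually_gt_atTop 0).mono fun n hn => ha.trans_le ?_,
    fun a ha => ?_⟩
  · rw [le_div_iff₀ (by positivity), one_div_mul_eq_div]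
    exact (bounds one_pos).1
  obtain ⟨T, hT⟩ := exists_nat_gt (2 / (a - 1 / (k + 1)))
  have hT' : (0 : ℝ) < T := lt_trans (div_pos two_pos (sub_pos.2 ha)) hT
  have h0 : 0 < T := by exact_mod_cast hT'
  rw [div_lt_comm₀ (sub_pos.2 ha) hT'] at hT
  have t := ((tendsto_inv_atTop_zero.comp (Real.tendsto_sqrt_atTop.comp
    tendsto_natCast_atTop_atTop)).const_mul (T * (1 + k) : ℝ)).const_add
      (2 / T + 1 / (k + 1) : ℝ)
  filter_upwards [t.eventually_lt_const (show _ < a by linarith), eventually_gt_atTop 0]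
    with n h1 h3
  have hn : (0 : ℝ) < n := by exact_mod_cast h3
  refine lt_of_le_of_lt ?_ h1
  rw [div_le_iff₀ hn]
  refine (bounds (k := k) (n := n) h0).2.trans (le_of_eq ?_)
  have := Real.sqrt_pos.2 hn
  simp only [Function.comp]
  conv_rhs => rw [add_mul, mul_assoc _ (√n)⁻¹, ← div_eq_inv_mul, Real.div_sqrt]
  field_simp; ring

end Pool.Agent.Results.MP_6cdded_pr.Limit
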